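import Pool.Agent.ZGap.Res.Reduce

/-!
# The size-bias identity for the weight `mu` on finite sets of primes

`EE R T G = ∑_U mu(U) G(u_U)`, `u_U = log U / (θ log T)`, and
`EE (u G(u)) = (r²/θ) EE (∫_0^1 f(x)² G(u + x/θ) dx) + O(1/log T)` for Lipschitz bounded `G`.
-/

namespace Pool.Agent.ZGap.Res.Small

open MeasureTheory Finset Filter Topology

variable {R : ResData} {T : ℝ}

lemma th_pos (R : ResData) : 0 < R.th := by linarith [R.ep_pos, R.ep_th]

/-- The position of a finite set of primes. -/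
noncomputable def uu (R : ResData) (T : ℝ) (U : Finset ℕ) : ℝ := ell U / (R.th * Real.log T)

/-- The normalised size of a prime. -/
noncomputable def xx (T : ℝ) (p : ℕ) : ℝ := Real.log p / Real.log T

/-- Sums against the weight `mu`. -/
noncomputable def EE (R : ResData) (T : ℝ) (G : ℝ → ℝ) : ℝ :=
  ∑ U ∈ (PP T).powerset, mu R T U * G (uu R T U)

lemma uu_nonneg (hT : 1 < T) (U : Finset ℕ) : 0 ≤ uu R T U := arg_nonneg hT U

lemma uu_insert {p : ℕ} {U : Finset ℕ} (hp : p ∉ U) :
    uu R T (insert p U) = uu R T U + xx T p / R.th := by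
  unfold uu xx ell
  rw [sum_insert hp, div_div, mul_comm (Real.log T)]
  ring

lemma uu_eq_sum (U : Finset ℕ) : uu R T U = ∑ p ∈ U, xx T p / R.th := by
  unfold uu xx ell
  rw [sum_div]
  refine sum_congr rfl fun p _ => ?_
  rw [div_div, mul_comm (Real.log T)]

lemma xx_nonneg (hT : 1 < T) (p : ℕ) : 0 ≤ xx T p :=
  div_nonneg (Real.log_natCast_nonneg p) (Real.log_pos hT).le

lemma xx_le_one (hT : 1 < T) {p : ℕ} (hp : p ∈ PP T) : xx T p ≤ 1 := by
  have h := mem_PP.mp hp
  have hp0 : (0:ℝ) < p := by exact_mod_cast h.1.pos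
  unfold xx
  rw [div_le_one (Real.log_pos hT)]
  apply Real.log_le_log hp0
  exact (Nat.le_floor_iff (by linarith)).mp h.2

lemma EE_mono (hT : 1 < T) {G H : ℝ → ℝ} (h : ∀ u, 0 ≤ u → G u ≤ H u) : EE R T G ≤ EE R T H :=
  sum_le_sum fun U _ => mul_le_mul_of_nonneg_left (h _ (uu_nonneg hT U)) (mu_nonneg U)

lemma EE_add (G H : ℝ → ℝ) : EE R T (fun u => G u + H u) = EE R T G + EE R T H := by
  unfold EE
  rw [← sum_add_distrib]
  exact sum_congr rfl fun U _ => mul_add _ _ _

lemma EE_sub (G H : ℝ → ℝ) : EE R T (fun u => G u - H u) = EE R T G - EE R T H := by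
  unfold EE
  rw [← sum_sub_distrib]
  exact sum_congr rfl fun U _ => mul_sub _ _ _

lemma EE_const_mul (c : ℝ) (G : ℝ → ℝ) : EE R T (fun u => c * G u) = c * EE R T G := by
  unfold EE
  rw [mul_sum]
  exact sum_congr rfl fun U _ => by ring

lemma abs_EE_le (hT : 1 < T) {G : ℝ → ℝ} {B : ℝ} (h : ∀ u, 0 ≤ u → |G u| ≤ B) :
    |EE R T G| ≤ B * E0 R T := by
  unfold EE E0
  refine (abs_sum_le_sum_abs _ _).trans ?_
  rw [mul_sum]
  refine sum_le_sum fun U _ => ?_
  rw [abs_mul, abs_of_nonneg (mu_nonneg U), mul_comm B]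
  exact mul_le_mul_of_nonneg_left (h _ (uu_nonneg hT U)) (mu_nonneg U)

lemma EE_nonneg (hT : 1 < T) {G : ℝ → ℝ} (h : ∀ u, 0 ≤ u → 0 ≤ G u) : 0 ≤ EE R T G :=
  sum_nonneg fun U _ => mul_nonneg (mu_nonneg U) (h _ (uu_nonneg hT U))

/-- Removing / inserting a prime. -/
lemma sum_mem_eq {q : ℕ} (hq : q ∈ PP T) (Φ : Finset ℕ → ℝ) :
    ∑ S ∈ (PP T).powerset.filter (fun S => q ∈ S), Φ S =
      ∑ S ∈ (PP T).powerset.filter (fun S => q ∉ S), Φ (insert q S) := by
  classical
  refine sum_bij' (fun S _ => S.erase q) (fun S _ => insert q S) ?_ ?_ ?_ ?_ ?_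
  · intro S hS
    rw [mem_filter, mem_powerset] at hS ⊢
    exact ⟨(erase_subset _ _).trans hS.1, notMem_erase _ _⟩
  · intro S hS
    rw [mem_filter, mem_powerset] at hS ⊢
    refine ⟨?_, mem_insert_self _ _⟩
    intro x hx
    rcases mem_insert.mp hx with h | h
    · rw [h]; exact hq
    · exact hS.1 h
  · intro S hS
    rw [mem_filter] at hS
    exact insert_erase hS.2
  · intro S hS
    rw [mem_filter] at hS
    exact erase_insert hS.2
  · intro S hS
    rw [mem_filter] at hS
    rw [insert_erase hS.2]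

/-- The size-bias identity. -/
lemma size_bias (G : ℝ → ℝ) : EE R T (fun u => u * G u) =
    ∑ p ∈ PP T, xx T p / R.th * cc R T p ^ 2 *
      ∑ V ∈ (PP T).powerset.filter (fun S => p ∉ S), mu R T V * G (uu R T V + xx T p / R.th) := by
  classical
  have h1 : EE R T (fun u => u * G u) = ∑ U ∈ (PP T).powerset, ∑ p ∈ PP T,
      if p ∈ U then xx T p / R.th * (mu R T U * G (uu R T U)) else 0 := by
    unfold EE
    refine sum_congr rfl fun U hU => ?_
    rw [mem_powerset] at hU
    rw [← sum_filter, filter_mem_eq_inter, inter_eq_right.mpr hU, ← sum_mul, ← uu_eq_sum]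
    ring
  rw [h1, sum_comm]
  refine sum_congr rfl fun p hp => ?_
  rw [← sum_filter, sum_mem_eq hp, mul_sum]
  refine sum_congr rfl fun V hV => ?_
  rw [mem_filter] at hV
  rw [mu_insert hV.2, uu_insert hV.2]
  ring

lemma sum_notMem_eq (p : ℕ) (Φ : Finset ℕ → ℝ) :
    ∑ V ∈ (PP T).powerset.filter (fun S => p ∉ S), Φ V =
      ∑ V ∈ (PP T).powerset, Φ V - ∑ V ∈ (PP T).powerset.filter (fun S => p ∈ S), Φ V := by
  classical
  have := sum_filter_add_sum_filter_not (PP T).powerset (fun S => p ∈ S) Φ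
  linarith

/-- Replacing the sum over the sets not containing `p` by the sum over all sets. -/
lemma abs_sum_notMem_sub_le (hT : 1 < T) {p : ℕ} (hp : p ∈ PP T) {Φ : ℝ → ℝ} {B : ℝ}
    (hB : ∀ u, 0 ≤ u → |Φ u| ≤ B) :
    |∑ V ∈ (PP T).powerset.filter (fun S => p ∉ S), mu R T V * Φ (uu R T V) -
      ∑ V ∈ (PP T).powerset, mu R T V * Φ (uu R T V)| ≤ B * (cc R T p ^ 2 * E0 R T) := by
  classical
  rw [sum_notMem_eq, sub_sub_cancel_left, abs_neg]
  have hB0 : 0 ≤ B := (abs_nonneg _).trans (hB 0 le_rfl)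
  calc |∑ V ∈ (PP T).powerset.filter (fun S => p ∈ S), mu R T V * Φ (uu R T V)|
      ≤ ∑ V ∈ (PP T).powerset.filter (fun S => p ∈ S), B * mu R T V := by
        refine (abs_sum_le_sum_abs _ _).trans (sum_le_sum fun V _ => ?_)
        rw [abs_mul, abs_of_nonneg (mu_nonneg V), mul_comm B]
        exact mul_le_mul_of_nonneg_left (hB _ (uu_nonneg hT V)) (mu_nonneg V)
    _ = B * ∑ V ∈ (PP T).powerset, (if p ∈ V then mu R T V else 0) := by
        rw [← mul_sum, sum_filter]
    _ ≤ _ := mul_le_mul_of_nonneg_left (sum_mu_mem_le hp) hB0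

lemma exists_small (R : ResData) : ∃ T0 : ℝ, Real.exp 3 ≤ T0 ∧ ∀ T : ℝ, T0 ≤ T →
    T ^ (-R.ep) ≤ 1 / Real.log T := by
  have h2 := (isLittleO_log_rpow_atTop R.ep_pos).bound (show (0:ℝ) < 1 by norm_num)
  obtain ⟨T0, h⟩ := eventually_atTop.mp (h2.and (eventually_gt_atTop 1))
  refine ⟨max T0 (Real.exp 3), le_max_right _ _, fun T hT => ?_⟩
  obtain ⟨h3, h4⟩ := h T ((le_max_left _ _).trans hT)
  have hT0 : 0 < T := by linarith
  have hl : 0 < Real.log T := Real.log_pos h4
  rw [Real.norm_of_nonneg hl.le, Real.norm_of_nonneg (by positivity), one_mul] at h3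
  rw [Real.rpow_neg hT0.le, ← one_div]
  exact one_div_le_one_div_of_le hl h3

/-- Sums over primes of the shifts of a function, averaged over `mu`. `a` is the exponent of the
cutoff. -/
theorem exists_shift_sum (R : ResData) {φ H Φ : ℝ → ℝ} {K B : ℝ} (hK : 0 ≤ K)
    (hφ0 : ∀ x, x ∉ Set.Ioo R.ep ((R.th + 1 / 2) / 2) → φ x = 0)
    (hφB : ∀ x, |φ x| ≤ B) (hφL : ∀ x y, |φ x - φ y| ≤ K * |x - y|)
    (hHB : ∀ x, |H x| ≤ B) (hHL : ∀ x y, |H x - H y| ≤ K * |x - y|) (hΦ : ∀ x, |Φ x| ≤ B) :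
    ∃ C T0 : ℝ, 0 < C ∧ Real.exp 3 ≤ T0 ∧ ∀ T : ℝ, T0 ≤ T →
      |∑ p ∈ PP T, wt T p * φ (xx T p) * ∑ V ∈ (PP T).powerset.filter (fun S => p ∉ S),
          mu R T V * (Φ (uu R T V) * H (uu R T V + xx T p / R.th)) -
        EE R T (fun u => Φ u * ∫ x in (0:ℝ)..1, φ x * H (u + x / R.th))| ≤ C / Real.log T := by
  have hth := th_pos R
  have hB0 : 0 ≤ B := (abs_nonneg _).trans (hΦ 0)
  have hthlt := R.th_lt
  have hep := R.ep_pos
  have hepth := R.ep_th
  obtain ⟨C1, hC1, T1, hT1, hps⟩ := prime_sum (e := R.ep) (b := (R.th + 1 / 2) / 2) hep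
    (by linarith) (by linarith)
  obtain ⟨T2, hT2, hsm⟩ := exists_small R
  have hE1 := E1_pos (R := R)
  refine ⟨B ^ 3 * 3 * (R.r ^ 2 * E1 R) + B * (C1 * (K * B + B * (K / R.th) + B * B)) * E1 R + 1,
    max T1 T2, by positivity, hT2.trans (le_max_right _ _), fun T hT => ?_⟩
  have hTT1 : T1 ≤ T := (le_max_left _ _).trans hT
  have hTT2 : T2 ≤ T := (le_max_right _ _).trans hT
  have hTe : Real.exp 3 ≤ T := hT2.trans hTT2
  have h1T : 1 < T := lt_of_lt_of_le (Real.one_lt_exp_iff.mpr (by norm_num)) hTe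
  have hL : 0 < Real.log T := Real.log_pos h1T
  have hE0 := E0_le_E1 (R := R) hTe
  have hE00 := E0_nonneg (R := R) (T := T)
  -- step 1: all sets
  have step1 : |∑ p ∈ PP T, wt T p * φ (xx T p) * ∑ V ∈ (PP T).powerset.filter (fun S => p ∉ S),
          mu R T V * (Φ (uu R T V) * H (uu R T V + xx T p / R.th)) -
      ∑ p ∈ PP T, wt T p * φ (xx T p) * ∑ V ∈ (PP T).powerset,
          mu R T V * (Φ (uu R T V) * H (uu R T V + xx T p / R.th))| ≤
      B ^ 3 * 3 * (R.r ^ 2 * E1 R) / Real.log T := by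
    rw [← sum_sub_distrib]
    refine (abs_sum_le_sum_abs _ _).trans ?_
    calc _ ≤ ∑ p ∈ PP T, wt T p * (B ^ 3 * (R.r ^ 2 * E1 R) / Real.log T) := by
          refine sum_le_sum fun p hp => ?_
          rw [← mul_sub, abs_mul, abs_mul, abs_of_nonneg (wt_nonneg h1T p), mul_assoc]
          apply mul_le_mul_of_nonneg_left _ (wt_nonneg h1T p)
          have e1 := abs_sum_notMem_sub_le (R := R) h1T hp
            (Φ := fun u => Φ u * H (u + xx T p / R.th)) (B := B * B) (fun u _ => by
              rw [abs_mul]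
              exact mul_le_mul (hΦ _) (hHB _) (abs_nonneg _) hB0)
          have e2 := cc_sq_le_pow (R := R) h1T (mem_PP.mp hp).1.pos
          have e3 := hsm T hTT2
          calc |φ (xx T p)| * _ ≤ B * (B * B * (cc R T p ^ 2 * E0 R T)) :=
                mul_le_mul (hφB _) e1 (abs_nonneg _) hB0
            _ ≤ B * (B * B * ((R.r ^ 2 * (1 / Real.log T)) * E1 R)) := by
                have : cc R T p ^ 2 ≤ R.r ^ 2 * (1 / Real.log T) :=
                  e2.trans (mul_le_mul_of_nonneg_left e3 (sq_nonneg _))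
                gcongr
            _ = _ := by ring
      _ = (∑ p ∈ PP T, wt T p) * (B ^ 3 * (R.r ^ 2 * E1 R) / Real.log T) := by rw [sum_mul]
      _ ≤ 3 * (B ^ 3 * (R.r ^ 2 * E1 R) / Real.log T) :=
          mul_le_mul_of_nonneg_right (sum_wt_le hTe) (by positivity)
      _ = _ := by ring
  -- step 2: the prime sum
  have step2 : |∑ p ∈ PP T, wt T p * φ (xx T p) * ∑ V ∈ (PP T).powerset,
          mu R T V * (Φ (uu R T V) * H (uu R T V + xx T p / R.th)) -
      EE R T (fun u => Φ u * ∫ x in (0:ℝ)..1, φ x * H (u + x / R.th))| ≤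
      B * (C1 * (K * B + B * (K / R.th) + B * B)) * E1 R / Real.log T := by
    have e1 : ∑ p ∈ PP T, wt T p * φ (xx T p) * ∑ V ∈ (PP T).powerset,
          mu R T V * (Φ (uu R T V) * H (uu R T V + xx T p / R.th)) =
        ∑ V ∈ (PP T).powerset, mu R T V * (Φ (uu R T V) *
          ∑ p ∈ PP T, Real.log p / (p * Real.log T) *
            (φ (Real.log p / Real.log T) * H (uu R T V + (Real.log p / Real.log T) / R.th))) := by
      simp_rw [mul_sum]
      rw [sum_comm]
      refine sum_congr rfl fun V _ => sum_congr rfl fun p _ => ?_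
      unfold wt xx
      ring
    rw [e1]
    unfold EE
    rw [← sum_sub_distrib]
    refine (abs_sum_le_sum_abs _ _).trans ?_
    calc _ ≤ ∑ V ∈ (PP T).powerset, mu R T V *
          (B * (C1 * (K * B + B * (K / R.th) + B * B) / Real.log T)) := by
          refine sum_le_sum fun V _ => ?_
          rw [← mul_sub, ← mul_sub, abs_mul, abs_mul, abs_of_nonneg (mu_nonneg V)]
          apply mul_le_mul_of_nonneg_left _ (mu_nonneg V)
          apply mul_le_mul (hΦ _) _ (abs_nonneg _) hB0
          refine hps T hTT1 (fun x => φ x * H (uu R T V + x / R.th)) (K * B + B * (K / R.th))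
            (B * B) (by positivity) (by positivity) (fun x hx => by rw [hφ0 x hx, zero_mul])
            (fun x y => ?_) (fun x => ?_)
          · have e2 : φ x * H (uu R T V + x / R.th) - φ y * H (uu R T V + y / R.th) =
                (φ x - φ y) * H (uu R T V + x / R.th) +
                φ y * (H (uu R T V + x / R.th) - H (uu R T V + y / R.th)) := by ring
            rw [e2]
            refine (abs_add_le _ _).trans ?_
            rw [abs_mul, abs_mul]
            have e3 : |H (uu R T V + x / R.th) - H (uu R T V + y / R.th)| ≤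
                K / R.th * |x - y| := by
              refine (hHL _ _).trans (le_of_eq ?_)
              have : uu R T V + x / R.th - (uu R T V + y / R.th) = (x - y) / R.th := by ring
              rw [this, abs_div, abs_of_pos hth]
              ring
            calc |φ x - φ y| * |H (uu R T V + x / R.th)| +
                  |φ y| * |H (uu R T V + x / R.th) - H (uu R T V + y / R.th)|
                ≤ (K * |x - y|) * B + B * (K / R.th * |x - y|) :=
                  add_le_add (mul_le_mul (hφL _ _) (hHB _) (abs_nonneg _) (by positivity))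
                    (mul_le_mul (hφB _) e3 (abs_nonneg _) hB0)
              _ = _ := by ring
          · rw [abs_mul]
            exact mul_le_mul (hφB _) (hHB _) (abs_nonneg _) hB0
      _ = (B * (C1 * (K * B + B * (K / R.th) + B * B) / Real.log T)) * E0 R T := by
          unfold E0
          rw [mul_sum]
          exact sum_congr rfl fun V _ => mul_comm _ _
      _ ≤ (B * (C1 * (K * B + B * (K / R.th) + B * B) / Real.log T)) * E1 R := by gcongr
      _ = _ := by ring
  have h3 := (abs_sub_le _ _ _).trans (add_le_add step1 step2)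
  refine h3.trans ?_
  rw [← add_div]
  apply div_le_div_of_nonneg_right _ hL.le
  linarith

/-- The integral appearing in the size-bias identity. -/
noncomputable def JJ (R : ResData) (G : ℝ → ℝ) (u : ℝ) : ℝ :=
  ∫ x in (0:ℝ)..1, R.f x ^ 2 * G (u + x / R.th)

lemma exists_f_lip (R : ResData) : ∃ K : ℝ, 0 ≤ K ∧ ∀ x y, |R.f x - R.f y| ≤ K * |x - y| := by
  have hsupp : HasCompactSupport R.f := by
    refine HasCompactSupport.intro (isCompact_Icc (a := R.ep) (b := (R.th + 1 / 2) / 2))
      fun x hx => ?_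
    by_cases h : x < R.ep
    · exact R.f_low x h.le
    · apply R.f_high x
      by_contra hcon
      exact hx ⟨not_lt.mp h, (not_le.mp hcon).le⟩
  obtain ⟨K, hK⟩ := (R.f_smooth.of_le (show (1:WithTop ℕ∞) ≤ _ from mod_cast le_top)).lipschitzWith_of_hasCompactSupport
    hsupp (by norm_num)
  refine ⟨K, K.2, fun x y => ?_⟩
  have := hK.dist_le_mul x y
  rwa [Real.dist_eq, Real.dist_eq] at this

lemma f_notMem (R : ResData) {x : ℝ} (hx : x ∉ Set.Ioo R.ep ((R.th + 1 / 2) / 2)) : R.f x = 0 := by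
  by_cases h : x ≤ R.ep
  · exact R.f_low x h
  · apply R.f_high x
    by_contra hcon
    exact hx ⟨not_le.mp h, not_le.mp hcon⟩

/-- **The size-bias identity, asymptotically.** -/
theorem exists_adj (R : ResData) {G : ℝ → ℝ} {K B : ℝ} (hK : 0 ≤ K)
    (hGB : ∀ x, |G x| ≤ B) (hGL : ∀ x y, |G x - G y| ≤ K * |x - y|) :
    ∃ C T0 : ℝ, 0 < C ∧ Real.exp 3 ≤ T0 ∧ ∀ T : ℝ, T0 ≤ T →
      |EE R T (fun u => u * G u) - R.r ^ 2 / R.th * EE R T (JJ R G)| ≤ C / Real.log T := by
  obtain ⟨Kf, hKf, hf⟩ := exists_f_lip R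
  have hth := th_pos R
  have hB0 : 0 ≤ B := (abs_nonneg _).trans (hGB 0)
  obtain ⟨C, T0, hC, hT0, h⟩ := exists_shift_sum R (φ := fun x => R.f x ^ 2) (H := G)
    (Φ := fun _ => 1) (K := K + 2 * Kf) (B := B + 1) (by positivity)
    (fun x hx => by rw [f_notMem R hx]; norm_num)
    (fun x => by
      rw [abs_of_nonneg (sq_nonneg _)]
      have := f_sq_le R x
      linarith)
    (fun x y => by
      have e : R.f x ^ 2 - R.f y ^ 2 = (R.f x - R.f y) * (R.f x + R.f y) := by ring
      rw [e, abs_mul]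
      have h1 : |R.f x + R.f y| ≤ 2 := by
        rw [abs_of_nonneg (add_nonneg (R.f_nonneg _) (R.f_nonneg _))]
        linarith [R.f_le x, R.f_le y]
      calc _ ≤ (Kf * |x - y|) * 2 := mul_le_mul (hf x y) h1 (abs_nonneg _) (by positivity)
        _ ≤ _ := by
          have : 0 ≤ K * |x - y| := by positivity
          nlinarith)
    (fun x => (hGB x).trans (by linarith))
    (fun x y => (hGL x y).trans (by
      have : 0 ≤ Kf * |x - y| := by positivity
      nlinarith))
    (fun x => by rw [abs_one]; linarith)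
  refine ⟨R.r ^ 2 / R.th * C + 1, T0, by positivity, hT0, fun T hT => ?_⟩
  have h1 := h T hT
  have h1T : 1 < T := lt_of_lt_of_le (Real.one_lt_exp_iff.mpr (by norm_num)) (hT0.trans hT)
  have hL : 0 < Real.log T := Real.log_pos h1T
  rw [size_bias]
  have e1 : ∑ p ∈ PP T, xx T p / R.th * cc R T p ^ 2 *
      ∑ V ∈ (PP T).powerset.filter (fun S => p ∉ S), mu R T V * G (uu R T V + xx T p / R.th) =
      R.r ^ 2 / R.th * ∑ p ∈ PP T, wt T p * R.f (xx T p) ^ 2 *
        ∑ V ∈ (PP T).powerset.filter (fun S => p ∉ S),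
          mu R T V * (1 * G (uu R T V + xx T p / R.th)) := by
    rw [mul_sum]
    refine sum_congr rfl fun p hp => ?_
    have hp0 : (0:ℝ) < p := by exact_mod_cast (mem_PP.mp hp).1.pos
    simp_rw [one_mul]
    rw [← mul_assoc]
    congr 1
    rw [cc_sq]
    unfold wt xx
    field_simp
  have e2 : EE R T (JJ R G) = EE R T (fun u => 1 * ∫ x in (0:ℝ)..1, R.f x ^ 2 * G (u + x / R.th)) := by
    unfold JJ
    simp_rw [one_mul]
  rw [e1, e2, ← mul_sub, abs_mul, abs_of_nonneg (by positivity)]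
  calc _ ≤ R.r ^ 2 / R.th * (C / Real.log T) := mul_le_mul_of_nonneg_left h1 (by positivity)
    _ ≤ _ := by
      rw [mul_div_assoc', div_le_div_iff_of_pos_right hL]
      linarith

/-- **The off-diagonal sum.** -/
theorem exists_S1 (R : ResData) {k : ℝ → ℝ} {K B : ℝ} (hK : 0 ≤ K) (hF1 : ∀ x, R.F x ≤ 1)
    (hkB : ∀ x, |k x| ≤ B) (hkL : ∀ x y, |k x - k y| ≤ K * |x - y|) :
    ∃ C T0 : ℝ, 0 < C ∧ Real.exp 3 ≤ T0 ∧ ∀ T : ℝ, T0 ≤ T →
      |S1 R T k - R.r * EE R T (fun u => R.F u * ∫ x in (0:ℝ)..1, R.f x * k x * R.F (u + x / R.th))|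
        ≤ C / Real.log T := by
  obtain ⟨Kf, hKf, hf⟩ := exists_f_lip R
  have hth := th_pos R
  have hB0 : 0 ≤ B := (abs_nonneg _).trans (hkB 0)
  obtain ⟨KF, hKF⟩ := (R.F_smooth.of_le
    (show (1:WithTop ℕ∞) ≤ _ from mod_cast le_top)).lipschitzWith_of_hasCompactSupport
    R.F_supp (by norm_num)
  have hFL : ∀ x y, |R.F x - R.F y| ≤ KF * |x - y| := fun x y => by
    have := hKF.dist_le_mul x y
    rwa [Real.dist_eq, Real.dist_eq] at this
  have hFB : ∀ x, |R.F x| ≤ 1 := fun x => by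
    rw [abs_of_nonneg (R.F_nonneg x)]; exact hF1 x
  have hfB : ∀ x, |R.f x| ≤ 1 := fun x => by
    rw [abs_of_nonneg (R.f_nonneg x)]; exact R.f_le x
  obtain ⟨C, T0, hC, hT0, h⟩ := exists_shift_sum R (φ := fun x => R.f x * k x) (H := R.F)
    (Φ := R.F) (K := K + Kf * B + KF) (B := B + 1) (by positivity)
    (fun x hx => by rw [f_notMem R hx, zero_mul])
    (fun x => by
      rw [abs_mul]
      calc _ ≤ 1 * B := mul_le_mul (hfB x) (hkB x) (abs_nonneg _) zero_le_one
        _ ≤ _ := by linarith)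
    (fun x y => by
      have e : R.f x * k x - R.f y * k y = (R.f x - R.f y) * k x + R.f y * (k x - k y) := by ring
      rw [e]
      refine (abs_add_le _ _).trans ?_
      rw [abs_mul, abs_mul]
      calc _ ≤ (Kf * |x - y|) * B + 1 * (K * |x - y|) :=
            add_le_add (mul_le_mul (hf x y) (hkB x) (abs_nonneg _) (by positivity))
              (mul_le_mul (hfB y) (hkL x y) (abs_nonneg _) zero_le_one)
        _ ≤ _ := by
          have : 0 ≤ (KF:ℝ) * |x - y| := by positivity
          nlinarith)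
    (fun x => (hFB x).trans (by linarith))
    (fun x y => (hFL x y).trans (by
      have h1 : 0 ≤ K * |x - y| := by positivity
      have h2 : 0 ≤ Kf * B * |x - y| := by positivity
      nlinarith))
    (fun x => (hFB x).trans (by linarith))
  refine ⟨|R.r| * C + 1, T0, by positivity, hT0, fun T hT => ?_⟩
  have h1 := h T hT
  have h1T : 1 < T := lt_of_lt_of_le (Real.one_lt_exp_iff.mpr (by norm_num)) (hT0.trans hT)
  have hL : 0 < Real.log T := Real.log_pos h1T
  have e1 : S1 R T k = R.r * ∑ p ∈ PP T, wt T p * (R.f (xx T p) * k (xx T p)) *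
        ∑ V ∈ (PP T).powerset.filter (fun S => p ∉ S),
          mu R T V * (R.F (uu R T V) * R.F (uu R T V + xx T p / R.th)) := by
    unfold S1
    rw [mul_sum]
    refine sum_congr rfl fun p hp => ?_
    have hp0 : (0:ℝ) < p := by exact_mod_cast (mem_PP.mp hp).1.pos
    have hs : Real.sqrt p * Real.sqrt p = p := Real.mul_self_sqrt hp0.le
    have hs0 : 0 < Real.sqrt p := Real.sqrt_pos.mpr hp0
    unfold NN
    have e2 : ∀ V ∈ (PP T).powerset.filter (fun S => p ∉ S), aa R T (insert p V) * aa R T V =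
        cc R T p * (mu R T V * (R.F (uu R T V) * R.F (uu R T V + xx T p / R.th))) := by
      intro V hV
      rw [mem_filter] at hV
      have e3 : aa R T V = R.F (uu R T V) * ∏ q ∈ V, cc R T q := rfl
      have e4 : aa R T (insert p V) = R.F (uu R T V + xx T p / R.th) *
          (cc R T p * ∏ q ∈ V, cc R T q) := by
        rw [← prod_insert hV.2, ← uu_insert hV.2]
        rfl
      have e5 : mu R T V = (∏ q ∈ V, cc R T q) * ∏ q ∈ V, cc R T q := by
        unfold mu
        rw [← sq, ← prod_pow]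
      rw [e3, e4, e5]
      ring
    rw [sum_congr rfl e2, ← mul_sum]
    have e6 : cc R T p = R.r * R.f (xx T p) / Real.sqrt p := rfl
    rw [e6]
    have e7 : Real.log p / (Real.sqrt p * Real.log T) * k (Real.log p / Real.log T) *
        (R.r * R.f (xx T p) / Real.sqrt p) = R.r * (wt T p * (R.f (xx T p) * k (xx T p))) := by
      unfold wt xx
      have : (p:ℝ) * Real.log T = Real.sqrt p * Real.sqrt p * Real.log T := by rw [hs]
      rw [this]
      field_simp
    rw [← mul_assoc, e7]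
    ring
  rw [e1, ← mul_sub, abs_mul]
  calc _ ≤ |R.r| * (C / Real.log T) := mul_le_mul_of_nonneg_left h1 (abs_nonneg _)
    _ ≤ _ := by
      rw [mul_div_assoc', div_le_div_iff_of_pos_right hL]
      linarith

lemma DD_eq (R : ResData) (T : ℝ) : DD R T = EE R T (fun u => R.F u ^ 2) := by
  unfold DD EE
  refine sum_congr rfl fun V _ => ?_
  have e3 : aa R T V = R.F (uu R T V) * ∏ q ∈ V, cc R T q := rfl
  have e5 : mu R T V = (∏ q ∈ V, cc R T q) * ∏ q ∈ V, cc R T q := by
    unfold mu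
    rw [← sq, ← prod_pow]
  rw [e3, e5]
  ring

end Pool.Agent.ZGap.Res.Small
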