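import Pool.Agent.ZGap.Res.Small.Main

/-!
# The arithmetic inequality for small gaps, conclusion
-/

open scoped ContDiff

namespace Pool.Agent.ZGap.Res.Small

open MeasureTheory Finset Filter Topology

theorem exists_resData {th ep δ : ℝ} (hep : 0 < ep) (hth : 2 * ep < th) (hth1 : th < 1 / 2)
    (hδ : 0 < δ) (hδ1 : δ < 1) : ∃ R : ResData, R.th = th ∧ R.ep = ep ∧ R.r = -1 ∧
      (∀ x, R.F x ≤ 1) ∧ (∀ x, 0 ≤ x → x ≤ 1 - δ → R.F x = 1) := by
  let χ : ContDiffBump (0:ℝ) := ⟨1 - δ, 1, by linarith, by linarith⟩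
  refine ⟨{
    th := th
    ep := ep
    r := -1
    f := fun x => Real.smoothTransition ((x - ep) / ep) *
      Real.smoothTransition (((th + 1 / 2) / 2 - x) / ((th + 1 / 2) / 2 - th))
    F := χ
    ep_pos := hep
    ep_th := hth
    th_lt := hth1
    f_smooth := ?_
    f_nonneg := fun x => mul_nonneg (Real.smoothTransition.nonneg _) (Real.smoothTransition.nonneg _)
    f_le := fun x => mul_le_one₀ (Real.smoothTransition.le_one _)
      (Real.smoothTransition.nonneg _) (Real.smoothTransition.le_one _)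
    f_low := fun x hx => ?_
    f_mid := fun x h1 h2 => ?_
    f_high := fun x hx => ?_
    F_smooth := χ.contDiff
    F_supp := χ.hasCompactSupport
    F_nonneg := fun x => χ.nonneg
    F_one := fun x hx => ?_ }, rfl, rfl, rfl, fun x => χ.le_one, fun x h0 h1 => ?_⟩
  · apply ContDiff.mul
    · exact Real.smoothTransition.contDiff.comp (by fun_prop)
    · exact Real.smoothTransition.contDiff.comp (by fun_prop)
  · rw [Real.smoothTransition.zero_of_nonpos, zero_mul]
    exact div_nonpos_of_nonpos_of_nonneg (by linarith) hep.le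
  · rw [Real.smoothTransition.one_of_one_le, Real.smoothTransition.one_of_one_le, one_mul]
    · rw [le_div_iff₀ (by linarith)]; linarith
    · rw [le_div_iff₀ hep]; linarith
  · rw [Real.smoothTransition.zero_of_nonpos (x := ((th + 1 / 2) / 2 - x) / _), mul_zero]
    exact div_nonpos_of_nonpos_of_nonneg (by linarith) (by linarith)
  · have : x ∉ Function.support χ := by
      rw [χ.support_eq]
      simp only [Metric.mem_ball, dist_zero_right, Real.norm_eq_abs, not_lt]
      exact hx.trans (le_abs_self x)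
    simpa [Function.mem_support] using this
  · apply χ.one_of_mem_closedBall
    simp only [Metric.mem_closedBall, dist_zero_right, Real.norm_eq_abs]
    rw [abs_of_nonneg h0]
    exact h1

/-- **The arithmetic inequality for small gaps.** -/
theorem exists_small_arith {c : ℝ} (hc0 : 0 < c) (hc1 : c < 1)
    (hnum : 1 + Real.pi ^ 2 * c ^ 3 / 144 < 2 * c) {k : ℝ → ℝ} {K B : ℝ} (hK : 0 ≤ K)
    (hkB : ∀ x, |k x| ≤ B) (hkL : ∀ x y, |k x - k y| ≤ K * |x - y|)
    (hkl : ∀ x, 0 ≤ x → x ≤ 1 / 2 → 2 * Real.pi * c - (Real.pi * c) ^ 3 * x ^ 2 / 3 ≤ k x) :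
    ∃ R : ResData, R.r = -1 ∧ (∀ x, R.F x ≤ 1) ∧ R.F 0 = 1 ∧ ∃ κ T0 : ℝ, 0 < κ ∧
      Real.exp 3 ≤ T0 ∧ ∀ T : ℝ, T0 ≤ T →
        κ * DD R T ≤ (c - 1) * DD R T - 2 / Real.pi * S1 R T k := by
  have hpi := Real.pi_pos
  have hpi4 := Real.pi_lt_d2
  set q : ℝ := 2 * c - 1 - Real.pi ^ 2 * c ^ 3 / 144 with hq
  have hq0 : 0 < q := by rw [hq]; linarith
  have hq1 : q < 1 := by
    have : 0 < Real.pi ^ 2 * c ^ 3 / 144 := by positivity
    rw [hq]; linarith
  obtain ⟨R, hRth, hRep, hRr, hF1, hFδ⟩ := exists_resData (th := 1 / 2 - q / 8) (ep := q / 200)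
    (δ := q / 600) (by positivity) (by linarith) (by linarith) (by positivity) (by linarith)
  set δ : ℝ := q / 600 with hδd
  have hδ : 0 < δ := by rw [hδd]; positivity
  have hr : R.r ^ 2 = 1 := by rw [hRr]; norm_num
  have hth := th_pos R
  have hthlt := R.th_lt
  have hkc : Continuous k := by
    rw [Metric.continuous_iff]
    intro x ε hε
    refine ⟨ε / (K + 1), by positivity, fun y hy => ?_⟩
    rw [Real.dist_eq] at hy ⊢
    calc |k y - k x| ≤ K * |y - x| := hkL y x
      _ ≤ (K + 1) * |y - x| := by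
          have := abs_nonneg (y - x)
          nlinarith
      _ < (K + 1) * (ε / (K + 1)) := mul_lt_mul_of_pos_left hy (by positivity)
      _ = ε := by field_simp
  set a : ℝ := 4 * c * R.th with ha
  set b : ℝ := 2 * Real.pi ^ 2 * c ^ 3 * R.th ^ 3 / 9 with hb
  have ha0 : 0 < a := by positivity
  have ha2 : a ≤ 2 := by
    rw [ha]; nlinarith
  have hb0 : 0 ≤ b := by positivity
  have hab : 3 * b ≤ a := by
    have e1 : a - 3 * b = (2 / 3) * (c * R.th) * (6 - Real.pi ^ 2 * (c * R.th) ^ 2) := by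
      rw [ha, hb]; ring
    have e2 : (c * R.th) ^ 2 ≤ 1 / 4 := by
      have : c * R.th ≤ 1 / 2 := by nlinarith
      have : 0 < c * R.th := by positivity
      nlinarith
    have e3 : Real.pi ^ 2 ≤ 10 := by nlinarith
    have e4 : Real.pi ^ 2 * (c * R.th) ^ 2 ≤ 10 * (1 / 4) :=
      mul_le_mul e3 e2 (sq_nonneg _) (by norm_num)
    have e5 : 0 ≤ (2 / 3) * (c * R.th) * (6 - Real.pi ^ 2 * (c * R.th) ^ 2) := by
      apply mul_nonneg (by positivity)
      linarith
    linarith
  have hκ0 : 3 / 4 * q ≤ c - 1 + a / 2 - b / 4 := by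
    have e1 : R.th ^ 3 ≤ 1 / 8 := by
      have : R.th ^ 3 ≤ (1 / 2) ^ 3 := pow_le_pow_left₀ hth.le hthlt.le 3
      linarith
    have e2 : b / 4 ≤ Real.pi ^ 2 * c ^ 3 / 144 := by
      have : Real.pi ^ 2 * c ^ 3 * R.th ^ 3 ≤ Real.pi ^ 2 * c ^ 3 * (1 / 8) := by gcongr
      rw [hb]; linarith
    have e3 : a / 2 = c - c * q / 4 := by rw [ha, hRth]; ring
    have e4 : c * q ≤ q := by nlinarith
    linarith
  obtain ⟨C1, T1, hC1, hT1, h1⟩ := exists_hp_mean R hr (c := c) hb0 hab hδ
  obtain ⟨C2, T2, hC2, hT2, h2⟩ := exists_Edge R hr hδ (by linarith)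
  obtain ⟨C3, T3, hC3, hT3, h3⟩ := exists_S1 R hK hF1 hkB hkL
  refine ⟨R, hRr, hF1, hFδ 0 le_rfl (by linarith), q / 4, max (max T1 T2) (max T3
    (Real.exp (4 * (C1 + C2 + C3) / q))), by positivity, hT1.trans ((le_max_left _ _).trans
      (le_max_left _ _)), fun T hT => ?_⟩
  have hTT1 : T1 ≤ T := (le_max_left _ _).trans ((le_max_left _ _).trans hT)
  have hTT2 : T2 ≤ T := (le_max_right _ _).trans ((le_max_left _ _).trans hT)
  have hTT3 : T3 ≤ T := (le_max_left _ _).trans ((le_max_right _ _).trans hT)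
  have hTT4 : Real.exp (4 * (C1 + C2 + C3) / q) ≤ T :=
    (le_max_right _ _).trans ((le_max_right _ _).trans hT)
  have h1T : 1 < T := lt_of_lt_of_le (Real.one_lt_exp_iff.mpr (by norm_num)) (hT1.trans hTT1)
  have hL : 0 < Real.log T := Real.log_pos h1T
  have hL4 : 4 * (C1 + C2 + C3) / q ≤ Real.log T := by
    rw [Real.le_log_iff_exp_le (by linarith)]; exact hTT4
  have hsmall : (C1 + C2 + C3) / Real.log T ≤ q / 4 := by
    rw [div_le_iff₀ hL]
    rw [div_le_iff₀ hq0] at hL4
    linarith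
  have g1 := h1 T hTT1
  have g2 := h2 T hTT2
  have g3 := (abs_le.mp (h3 T hTT3)).2
  rw [hRr] at g3
  have hM := one_le_MM (R := R) (T := T)
  -- the pointwise inequality
  set η : ℝ := q / 4 + (4 * c * (2 * R.ep + δ) + 4 * c * R.th * δ) with hη
  have hηle : η ≤ q / 4 + (8 * R.ep + 6 * δ) := by
    rw [hη]
    have e1 : 4 * c * (2 * R.ep + δ) ≤ 4 * (2 * R.ep + δ) := by
      have : 0 ≤ 2 * R.ep + δ := by have := R.ep_pos; positivity
      nlinarith
    have e2 : 4 * c * R.th * δ ≤ 2 * δ := by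
      have : 4 * c * R.th ≤ 2 := ha2
      exact mul_le_mul_of_nonneg_right this hδ.le
    linarith
  have g4 : EE R T (fun u => if u < 1 then hp c a b u else 0) - η * MM R T ≤
      (c - 1 - q / 4) * DD R T + 2 / Real.pi *
        EE R T (fun u => R.F u * ∫ x in (0:ℝ)..1, R.f x * k x * R.F (u + x / R.th)) := by
    rw [DD_eq]
    unfold MM
    rw [← EE_const_mul, ← EE_const_mul, ← EE_const_mul, ← EE_sub, ← EE_add]
    apply EE_mono h1T
    intro u hu
    have := main_pointwise R (κ := q / 4) hkc hc0 hc1 (by positivity) hδ hF1 hFδ hkl hu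
    refine le_trans (le_of_eq ?_) this
    by_cases hu1 : u < 1
    · rw [if_pos hu1, if_pos hu1, if_pos hu1, mul_one]
    · rw [if_neg hu1, if_neg hu1, if_neg hu1]; ring
  have g5 : 2 / Real.pi * EE R T (fun u => R.F u * ∫ x in (0:ℝ)..1, R.f x * k x * R.F (u + x / R.th)) ≤
      - (2 / Real.pi * S1 R T k) + C3 / Real.log T := by
    have e1 : EE R T (fun u => R.F u * ∫ x in (0:ℝ)..1, R.f x * k x * R.F (u + x / R.th)) ≤
        - S1 R T k + C3 / Real.log T := by linarith
    have e2 : 2 / Real.pi ≤ 1 := by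
      rw [div_le_one hpi]
      linarith [Real.pi_gt_three]
    have e3 : 0 ≤ C3 / Real.log T := by positivity
    calc _ ≤ 2 / Real.pi * (- S1 R T k + C3 / Real.log T) :=
          mul_le_mul_of_nonneg_left e1 (by positivity)
      _ = - (2 / Real.pi * S1 R T k) + 2 / Real.pi * (C3 / Real.log T) := by ring
      _ ≤ _ := by nlinarith
  have g6 : a / 2 * Edge R T δ ≤ 60 * δ * MM R T + C2 / Real.log T := by
    have e1 : 0 ≤ Edge R T δ := EE_nonneg h1T fun u _ => by split_ifs <;> norm_num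
    have e2 : a / 2 * Edge R T δ ≤ 1 * Edge R T δ := mul_le_mul_of_nonneg_right (by linarith) e1
    linarith
  have g7 : 3 / 4 * q * MM R T ≤ (c - 1 + a / 2 - b / 4) * MM R T :=
    mul_le_mul_of_nonneg_right hκ0 (by linarith)
  have g8 : η * MM R T ≤ (q / 4 + (8 * R.ep + 6 * δ)) * MM R T :=
    mul_le_mul_of_nonneg_right hηle (by linarith)
  have g9 : (C1 + C2 + C3) / Real.log T = C1 / Real.log T + C2 / Real.log T + C3 / Real.log T := by
    ring
  rw [g9] at hsmall
  have g10 : 0 ≤ q * (MM R T - 1) := mul_nonneg hq0.le (by linarith)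
  rw [hRep, hδd] at g8
  rw [hδd] at g6
  nlinarith

end Pool.Agent.ZGap.Res.Small
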