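import Pool.Agent.ZGap.Res.Small.Adj

/-!
# Control of the mass near `u = 1` for `r² = 1`
-/

namespace Pool.Agent.ZGap.Res.Small

open MeasureTheory Finset Filter Topology

variable {R : ResData} {T : ℝ}

/-- The mass of `[0,1)`. -/
noncomputable def MM (R : ResData) (T : ℝ) : ℝ := EE R T (fun u => if u < 1 then 1 else 0)

/-- The mass of `[1-δ,1)`. -/
noncomputable def Edge (R : ResData) (T δ : ℝ) : ℝ :=
  EE R T (fun u => if 1 - δ ≤ u ∧ u < 1 then 1 else 0)

lemma MM_nonneg (hT : 1 < T) : 0 ≤ MM R T := EE_nonneg hT fun u _ => by split_ifs <;> norm_num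

lemma one_le_MM : 1 ≤ MM R T := by
  unfold MM EE
  calc (1:ℝ) = mu R T ∅ * (if uu R T ∅ < 1 then 1 else 0) := by
        rw [mu_empty]
        have : uu R T ∅ = 0 := by unfold uu ell; simp
        rw [this]; norm_num
    _ ≤ _ := single_le_sum (f := fun U => mu R T U * (if uu R T U < 1 then (1:ℝ) else 0))
        (fun U _ => mul_nonneg (mu_nonneg U) (by split_ifs <;> norm_num)) (empty_mem_powerset _)

lemma f_sq_continuous (R : ResData) : Continuous fun x => R.f x ^ 2 := by
  have := R.f_smooth.continuous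
  fun_prop

/-- `max 0 (2-u)`, bounded. -/
noncomputable def G1 (u : ℝ) : ℝ := max 0 (min 2 (2 - u))

lemma G1_continuous : Continuous G1 := by unfold G1; fun_prop

lemma G1_nonneg (u : ℝ) : 0 ≤ G1 u := le_max_left _ _

lemma G1_le (u : ℝ) : G1 u ≤ 2 := max_le (by norm_num) (min_le_left _ _)

lemma G1_of_le {u : ℝ} (h0 : 0 ≤ u) (h : u ≤ 2) : G1 u = 2 - u := by
  unfold G1
  rw [min_eq_right (by linarith), max_eq_right (by linarith)]

lemma G1_of_ge {u : ℝ} (h : 2 ≤ u) : G1 u = 0 := by
  unfold G1
  rw [min_eq_right (by linarith), max_eq_left (by linarith)]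

lemma G1_lip (x y : ℝ) : |G1 x - G1 y| ≤ 1 * |x - y| := by
  unfold G1
  have h1 := abs_max_sub_max_le_abs (min 2 (2 - x)) (min 2 (2 - y)) 0
  have h2 := abs_min_sub_min_le_max 2 (2 - x) 2 (2 - y)
  rw [max_comm (0:ℝ), max_comm (0:ℝ)]
  refine h1.trans (h2.trans ?_)
  rw [sub_self, abs_zero, one_mul]
  apply max_le (abs_nonneg _)
  have : 2 - x - (2 - y) = -(x - y) := by ring
  rw [this, abs_neg]

lemma JJ_G1_le {u : ℝ} (hu : 0 ≤ u) : 1 / R.th * JJ R G1 u ≤ (G1 u) ^ 2 / 2 := by
  have hth := th_pos R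
  have hthlt := R.th_lt
  have hcont : Continuous fun x => R.f x ^ 2 * G1 (u + x / R.th) :=
    (f_sq_continuous R).mul (G1_continuous.comp (by fun_prop))
  rcases le_or_gt 2 u with h2 | h2
  · have h1 : JJ R G1 u ≤ 0 := by
      unfold JJ
      apply le_of_eq
      rw [intervalIntegral.integral_of_le zero_le_one]
      apply MeasureTheory.integral_eq_zero_of_ae
      refine (ae_restrict_iff' measurableSet_Ioc).mpr (Eventually.of_forall fun x hx => ?_)
      have : 0 ≤ x / R.th := div_nonneg hx.1.le hth.le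
      simp only [Pi.zero_apply]
      rw [G1_of_ge (by linarith), mul_zero]
    have h3 : 0 ≤ (G1 u) ^ 2 / 2 := by positivity
    have : 1 / R.th * JJ R G1 u ≤ 0 := mul_nonpos_of_nonneg_of_nonpos (by positivity) h1
    linarith
  · set b := R.th * (2 - u) with hb
    have hb0 : 0 ≤ b := mul_nonneg hth.le (by linarith)
    have hb1 : b ≤ 1 := by nlinarith
    have h1 : JJ R G1 u ≤ R.th * (2 - u) ^ 2 / 2 := by
      unfold JJ
      rw [← intervalIntegral.integral_add_adjacent_intervals (b := b)
        (hcont.intervalIntegrable _ _) (hcont.intervalIntegrable _ _)]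
      have e1 : ∫ x in b..1, R.f x ^ 2 * G1 (u + x / R.th) = 0 := by
        rw [intervalIntegral.integral_of_le hb1]
        apply MeasureTheory.integral_eq_zero_of_ae
        refine (ae_restrict_iff' measurableSet_Ioc).mpr (Eventually.of_forall fun x hx => ?_)
        have : 2 - u ≤ x / R.th := by
          rw [le_div_iff₀ hth, mul_comm]; exact hx.1.le
        simp only [Pi.zero_apply]
        rw [G1_of_ge (by linarith), mul_zero]
      rw [e1, add_zero]
      have e2 : ∫ x in (0:ℝ)..b, R.f x ^ 2 * G1 (u + x / R.th) ≤ ∫ x in (0:ℝ)..b, (2 - u - x / R.th) := by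
        apply intervalIntegral.integral_mono_on hb0 (hcont.intervalIntegrable _ _)
          (Continuous.intervalIntegrable (by fun_prop) _ _)
        intro x hx
        have hx1 : 0 ≤ x / R.th := div_nonneg hx.1 hth.le
        have hx2 : x / R.th ≤ 2 - u := by
          rw [div_le_iff₀ hth, mul_comm]; exact hx.2
        rw [G1_of_le (by linarith) (by linarith)]
        have h5 := f_sq_le R x
        have h6 : 0 ≤ 2 - (u + x / R.th) := by linarith
        nlinarith
      refine e2.trans (le_of_eq ?_)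
      rw [intervalIntegral.integral_sub (by simp) (Continuous.intervalIntegrable (by fun_prop) _ _),
        intervalIntegral.integral_const, intervalIntegral.integral_div, integral_id, hb]
      simp only [smul_eq_mul]
      field_simp
      ring
    rw [G1_of_le hu h2.le]
    calc 1 / R.th * JJ R G1 u ≤ 1 / R.th * (R.th * (2 - u) ^ 2 / 2) :=
          mul_le_mul_of_nonneg_left h1 (by positivity)
      _ = _ := by field_simp

/-- The mass of `[1,3/2)`. -/
noncomputable def Out (R : ResData) (T : ℝ) : ℝ :=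
  EE R T (fun u => if 1 ≤ u ∧ u < 3 / 2 then 1 else 0)

theorem exists_Out (R : ResData) (hr : R.r ^ 2 = 1) : ∃ C T0 : ℝ, 0 < C ∧ Real.exp 3 ≤ T0 ∧
    ∀ T : ℝ, T0 ≤ T → Out R T ≤ 4 * MM R T + C / Real.log T := by
  obtain ⟨C, T0, hC, hT0, h⟩ := exists_adj R (G := G1) (K := 1) (B := 2) zero_le_one
    (fun x => by rw [abs_of_nonneg (G1_nonneg x)]; exact G1_le x) G1_lip
  refine ⟨2 * C, T0, by positivity, hT0, fun T hT => ?_⟩
  have h1T : 1 < T := lt_of_lt_of_le (Real.one_lt_exp_iff.mpr (by norm_num)) (hT0.trans hT)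
  have h1 := (abs_le.mp (h T hT)).2
  rw [hr] at h1
  have h2 : 1 / R.th * EE R T (JJ R G1) ≤ EE R T (fun u => (G1 u) ^ 2 / 2) := by
    rw [← EE_const_mul]
    exact EE_mono h1T fun u hu => JJ_G1_le hu
  have h3 : 1 / 2 * Out R T - 2 * MM R T ≤ EE R T (fun u => u * G1 u) -
      EE R T (fun u => (G1 u) ^ 2 / 2) := by
    unfold Out MM
    rw [← EE_const_mul, ← EE_const_mul, ← EE_sub, ← EE_sub]
    apply EE_mono h1T
    intro u hu
    rcases le_or_gt 2 u with hu2 | hu2
    · rw [G1_of_ge hu2, if_neg (by intro h; linarith [h.2]), if_neg (by linarith)]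
      norm_num
    · rw [G1_of_le hu hu2.le]
      by_cases h1u : u < 1
      · rw [if_neg (by intro h; linarith [h.1]), if_pos h1u]
        nlinarith
      · rw [if_neg h1u]
        have h1u' := not_lt.mp h1u
        by_cases h32 : u < 3 / 2
        · rw [if_pos ⟨h1u', h32⟩]
          nlinarith
        · rw [if_neg (by intro h; exact h32 h.2)]
          nlinarith
  have h4 : 2 * C / Real.log T = 2 * (C / Real.log T) := by ring
  rw [h4]
  linarith

/-- The tent around `1`. -/
noncomputable def G2 (δ u : ℝ) : ℝ := max 0 (2 - |u - 1| / δ)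

lemma G2_continuous (δ : ℝ) : Continuous (G2 δ) := by unfold G2; fun_prop

lemma G2_nonneg (δ u : ℝ) : 0 ≤ G2 δ u := le_max_left _ _

lemma G2_le {δ : ℝ} (hδ : 0 < δ) (u : ℝ) : G2 δ u ≤ 2 := by
  unfold G2
  have : 0 ≤ |u - 1| / δ := by positivity
  exact max_le (by norm_num) (by linarith)

lemma G2_zero {δ u : ℝ} (hδ : 0 < δ) (h : 2 * δ ≤ |u - 1|) : G2 δ u = 0 := by
  unfold G2
  apply max_eq_left
  have : 2 ≤ |u - 1| / δ := by rw [le_div_iff₀ hδ]; exact h
  linarith

lemma G2_ge {δ u : ℝ} (hδ : 0 < δ) (h : |u - 1| ≤ δ) : 1 ≤ G2 δ u := by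
  unfold G2
  apply le_max_of_le_right
  have : |u - 1| / δ ≤ 1 := by rw [div_le_one hδ]; exact h
  linarith

lemma G2_lip {δ : ℝ} (hδ : 0 < δ) (x y : ℝ) : |G2 δ x - G2 δ y| ≤ 1 / δ * |x - y| := by
  unfold G2
  have h1 := abs_max_sub_max_le_abs (2 - |x - 1| / δ) (2 - |y - 1| / δ) 0
  rw [max_comm (0:ℝ), max_comm (0:ℝ)]
  refine h1.trans ?_
  have e : 2 - |x - 1| / δ - (2 - |y - 1| / δ) = -((|x - 1| - |y - 1|) / δ) := by ring
  rw [e, abs_neg, abs_div, abs_of_pos hδ, one_div, inv_mul_eq_div]
  apply div_le_div_of_nonneg_right _ hδ.le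
  have := abs_abs_sub_abs_le_abs_sub (x - 1) (y - 1)
  have e2 : x - 1 - (y - 1) = x - y := by ring
  rwa [e2] at this

lemma JJ_G2_le {δ : ℝ} (hδ : 0 < δ) (u : ℝ) : 1 / R.th * JJ R (G2 δ) u ≤ 8 * δ := by
  have hth := th_pos R
  have hcont : Continuous fun x => R.f x ^ 2 * G2 δ (u + x / R.th) :=
    (f_sq_continuous R).mul ((G2_continuous δ).comp (by fun_prop))
  have h1 : JJ R (G2 δ) u ≤ 8 * δ * R.th := by
    unfold JJ
    rw [intervalIntegral.integral_of_le zero_le_one]
    set a := R.th * (1 - u) - 2 * δ * R.th with ha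
    set b := R.th * (1 - u) + 2 * δ * R.th with hb
    have hab : a ≤ b := by rw [ha, hb]; have : 0 < δ * R.th := by positivity
                           linarith
    have hfin : volume (Set.Icc a b) ≠ ⊤ := by rw [Real.volume_Icc]; exact ENNReal.ofReal_ne_top
    have i1 : Integrable (Set.indicator (Set.Icc a b) (fun _ => (2:ℝ))) :=
      (integrable_indicator_iff measurableSet_Icc).mpr (integrableOn_const hfin)
    calc ∫ x in Set.Ioc (0:ℝ) 1, R.f x ^ 2 * G2 δ (u + x / R.th)
        ≤ ∫ x in Set.Ioc (0:ℝ) 1, Set.indicator (Set.Icc a b) (fun _ => (2:ℝ)) x := by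
          apply setIntegral_mono_on
          · exact (hcont.integrableOn_Icc (a := 0) (b := 1)).mono_set Set.Ioc_subset_Icc_self
          · exact i1.integrableOn
          · exact measurableSet_Ioc
          · intro x _
            by_cases hx : x ∈ Set.Icc a b
            · rw [Set.indicator_of_mem hx]
              have h5 := f_sq_le R x
              have h6 := G2_le hδ (u + x / R.th)
              have h7 := G2_nonneg δ (u + x / R.th)
              have h8 := sq_nonneg (R.f x)
              nlinarith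
            · rw [Set.indicator_of_notMem hx, G2_zero hδ, mul_zero]
              by_contra hcon
              apply hx
              have hc := abs_lt.mp (not_le.mp hcon)
              have e1 : x = R.th * (x / R.th) := by field_simp
              rw [Set.mem_Icc, ha, hb]
              constructor
              · rw [e1]
                have := hc.1
                nlinarith
              · rw [e1]
                have := hc.2
                nlinarith
      _ ≤ ∫ x, Set.indicator (Set.Icc a b) (fun _ => (2:ℝ)) x := by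
          apply setIntegral_le_integral i1
          exact Eventually.of_forall fun x => Set.indicator_nonneg (fun _ _ => by norm_num) x
      _ = (b - a) * 2 := by
          rw [integral_indicator measurableSet_Icc, setIntegral_const, smul_eq_mul]
          simp [Measure.real, Real.volume_Icc, ENNReal.toReal_ofReal, sub_nonneg.mpr hab]
      _ = _ := by rw [ha, hb]; ring
  calc 1 / R.th * JJ R (G2 δ) u ≤ 1 / R.th * (8 * δ * R.th) :=
        mul_le_mul_of_nonneg_left h1 (by positivity)
    _ = _ := by field_simp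

lemma JJ_G2_zero {δ u : ℝ} (hδ : 0 < δ) (hu : 1 + 2 * δ ≤ u) : JJ R (G2 δ) u = 0 := by
  have hth := th_pos R
  unfold JJ
  rw [intervalIntegral.integral_of_le zero_le_one]
  apply MeasureTheory.integral_eq_zero_of_ae
  refine (ae_restrict_iff' measurableSet_Ioc).mpr (Eventually.of_forall fun x hx => ?_)
  have : 0 ≤ x / R.th := div_nonneg hx.1.le hth.le
  simp only [Pi.zero_apply]
  rw [G2_zero hδ (by rw [abs_of_nonneg (by linarith)]; linarith), mul_zero]

theorem exists_Edge (R : ResData) (hr : R.r ^ 2 = 1) {δ : ℝ} (hδ : 0 < δ) (hδ4 : δ ≤ 1 / 4) :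
    ∃ C T0 : ℝ, 0 < C ∧ Real.exp 3 ≤ T0 ∧
    ∀ T : ℝ, T0 ≤ T → Edge R T δ ≤ 60 * δ * MM R T + C / Real.log T := by
  obtain ⟨C1, T1, hC1, hT1, h1⟩ := exists_Out R hr
  obtain ⟨C, T0, hC, hT0, h⟩ := exists_adj R (G := G2 δ) (K := 1 / δ) (B := 2) (by positivity)
    (fun x => by rw [abs_of_nonneg (G2_nonneg δ x)]; exact G2_le hδ x) (G2_lip hδ)
  refine ⟨2 * C + 16 * C1, max T0 T1, by positivity, hT0.trans (le_max_left _ _), fun T hT => ?_⟩
  have hTT0 : T0 ≤ T := (le_max_left _ _).trans hT
  have hTT1 : T1 ≤ T := (le_max_right _ _).trans hT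
  have h1T : 1 < T := lt_of_lt_of_le (Real.one_lt_exp_iff.mpr (by norm_num)) (hT0.trans hTT0)
  have hL : 0 < Real.log T := Real.log_pos h1T
  have a1 := (abs_le.mp (h T hTT0)).2
  rw [hr] at a1
  have a2 := h1 T hTT1
  have a3 : 1 / R.th * EE R T (JJ R (G2 δ)) ≤ 8 * δ * (MM R T + Out R T) := by
    unfold MM Out
    rw [← EE_const_mul, ← EE_add, ← EE_const_mul]
    apply EE_mono h1T
    intro u _
    by_cases hu1 : u < 1
    · rw [if_pos hu1]
      have := JJ_G2_le (R := R) hδ u
      split_ifs with h2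
      · linarith [h2.1]
      · linarith
    · rw [if_neg hu1]
      by_cases hu2 : u < 3 / 2
      · rw [if_pos ⟨not_lt.mp hu1, hu2⟩]
        have := JJ_G2_le (R := R) hδ u
        linarith
      · rw [if_neg (by intro h; exact hu2 h.2), JJ_G2_zero hδ (by linarith [not_lt.mp hu2])]
        norm_num
  have a4 : 3 / 4 * Edge R T δ ≤ EE R T (fun u => u * G2 δ u) := by
    unfold Edge
    rw [← EE_const_mul]
    apply EE_mono h1T
    intro u hu
    split_ifs with h2
    · have := G2_ge (u := u) hδ (by rw [abs_le]; constructor <;> linarith [h2.1, h2.2])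
      nlinarith [h2.1]
    · have := G2_nonneg δ u
      have := mul_nonneg hu this
      linarith
  have hM := MM_nonneg (R := R) h1T
  have hCL : 0 ≤ C1 / Real.log T := by positivity
  have hCL' : 0 ≤ C / Real.log T := by positivity
  have e : (2 * C + 16 * C1) / Real.log T = 2 * (C / Real.log T) + 16 * (C1 / Real.log T) := by ring
  rw [e]
  have a5 : 8 * δ * (MM R T + Out R T) ≤ 8 * δ * (5 * MM R T + C1 / Real.log T) := by
    apply mul_le_mul_of_nonneg_left _ (by positivity)
    linarith
  have a6 : 8 * δ * (C1 / Real.log T) ≤ 2 * (C1 / Real.log T) := by nlinarith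
  have a7 : 0 ≤ δ * MM R T := by positivity
  nlinarith

end Pool.Agent.ZGap.Res.Small
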