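import Pool.Agent.ZGap.Res.Small.Edge

/-!
# The arithmetic inequality for small gaps
-/

open scoped ContDiff

namespace Pool.Agent.ZGap.Res.Small

open MeasureTheory Finset Filter Topology

variable {R : ResData} {T : ℝ}

/-- The clamp to `[0,1]`. -/
noncomputable def cl (u : ℝ) : ℝ := max 0 (min 1 u)

lemma cl_continuous : Continuous cl := by unfold cl; fun_prop

lemma cl_nonneg (u : ℝ) : 0 ≤ cl u := le_max_left _ _

lemma cl_le (u : ℝ) : cl u ≤ 1 := max_le (by norm_num) (min_le_left _ _)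

lemma cl_of_mem {u : ℝ} (h0 : 0 ≤ u) (h1 : u ≤ 1) : cl u = u := by
  unfold cl
  rw [min_eq_right h1, max_eq_right h0]

lemma cl_of_ge {u : ℝ} (h1 : 1 ≤ u) : cl u = 1 := by
  unfold cl
  rw [min_eq_left h1, max_eq_right (by norm_num)]

lemma cl_of_nonpos {u : ℝ} (h : u ≤ 0) : cl u = 0 := by
  unfold cl
  rw [min_eq_right (by linarith), max_eq_left h]

lemma cl_lip (x y : ℝ) : |cl x - cl y| ≤ |x - y| := by
  unfold cl
  have h1 := abs_max_sub_max_le_abs (min 1 x) (min 1 y) 0
  have h2 := abs_min_sub_min_le_max 1 x 1 y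
  rw [max_comm (0:ℝ), max_comm (0:ℝ)]
  refine h1.trans (h2.trans ?_)
  rw [sub_self, abs_zero]
  exact max_le (abs_nonneg _) le_rfl

/-- The polynomial solving the adjoint equation. -/
noncomputable def gp (a b u : ℝ) : ℝ := -a / 2 + 3 * b / 2 - 2 * b * u + 3 / 4 * b * u ^ 2

/-- The test function. -/
noncomputable def G3 (a b δ u : ℝ) : ℝ := cl ((1 - u) / δ) * gp a b (cl u)

lemma gp_continuous (a b : ℝ) : Continuous (gp a b) := by unfold gp; fun_prop

lemma G3_continuous (a b δ : ℝ) : Continuous (G3 a b δ) := by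
  have h1 := cl_continuous
  have h2 := gp_continuous a b
  unfold G3
  exact (h1.comp (by fun_prop)).mul (h2.comp h1)

lemma gp_nonpos {a b u : ℝ} (hb : 0 ≤ b) (hab : 3 * b ≤ a) (h0 : 0 ≤ u) (h1 : u ≤ 1) :
    gp a b u ≤ 0 := by
  unfold gp
  have : b * u ^ 2 ≤ b * u := by
    apply mul_le_mul_of_nonneg_left _ hb
    nlinarith
  have : 0 ≤ b * u := mul_nonneg hb h0
  linarith

lemma gp_ge {a b u : ℝ} (hb : 0 ≤ b) (_h0 : 0 ≤ u) (h1 : u ≤ 1) :
    -(a / 2) ≤ gp a b u := by
  unfold gp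
  have h2 : 0 ≤ 3 / 2 - 2 * u + 3 / 4 * u ^ 2 := by nlinarith [sq_nonneg (1 - u)]
  have h3 := mul_nonneg hb h2
  nlinarith

lemma gp_lip {a b x y : ℝ} (hb : 0 ≤ b) (hx0 : 0 ≤ x) (hx1 : x ≤ 1) (hy0 : 0 ≤ y) (hy1 : y ≤ 1) :
    |gp a b x - gp a b y| ≤ 4 * b * |x - y| := by
  have e : gp a b x - gp a b y = b * (-2 + 3 / 4 * (x + y)) * (x - y) := by unfold gp; ring
  rw [e, abs_mul, abs_mul, abs_of_nonneg hb]
  apply mul_le_mul_of_nonneg_right _ (abs_nonneg _)
  have : |-2 + 3 / 4 * (x + y)| ≤ 4 := by rw [abs_le]; constructor <;> linarith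
  nlinarith

lemma G3_nonpos {a b δ : ℝ} (hb : 0 ≤ b) (hab : 3 * b ≤ a) (u : ℝ) : G3 a b δ u ≤ 0 :=
  mul_nonpos_of_nonneg_of_nonpos (cl_nonneg _) (gp_nonpos hb hab (cl_nonneg _) (cl_le _))

lemma G3_abs {a b δ : ℝ} (hb : 0 ≤ b) (hab : 3 * b ≤ a) (u : ℝ) : |G3 a b δ u| ≤ a := by
  unfold G3
  have h1 := gp_nonpos (u := cl u) hb hab (cl_nonneg _) (cl_le _)
  have h2 := gp_ge (a := a) (u := cl u) hb (cl_nonneg _) (cl_le _)
  have h3 : |gp a b (cl u)| ≤ a := by rw [abs_le]; constructor <;> linarith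
  rw [abs_mul, abs_of_nonneg (cl_nonneg _)]
  calc cl ((1 - u) / δ) * |gp a b (cl u)| ≤ 1 * a :=
        mul_le_mul (cl_le _) h3 (abs_nonneg _) zero_le_one
    _ = a := one_mul a

lemma G3_lip {a b δ : ℝ} (hb : 0 ≤ b) (hab : 3 * b ≤ a) (hδ : 0 < δ) (x y : ℝ) :
    |G3 a b δ x - G3 a b δ y| ≤ (a / δ + 4 * b) * |x - y| := by
  unfold G3
  set P := gp a b (cl x)
  set Q := gp a b (cl y)
  have e : cl ((1 - x) / δ) * P - cl ((1 - y) / δ) * Q =
      (cl ((1 - x) / δ) - cl ((1 - y) / δ)) * P + cl ((1 - y) / δ) * (P - Q) := by ring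
  rw [e]
  have h1 := gp_nonpos (u := cl x) hb hab (cl_nonneg _) (cl_le _)
  have h2 := gp_ge (a := a) (u := cl x) hb (cl_nonneg _) (cl_le _)
  have h3 : |P| ≤ a := by rw [abs_le]; constructor <;> linarith
  have h4 : |P - Q| ≤ 4 * b * |x - y| :=
    (gp_lip hb (cl_nonneg _) (cl_le _) (cl_nonneg _) (cl_le _)).trans
      (mul_le_mul_of_nonneg_left (cl_lip x y) (by positivity))
  have h5 : |cl ((1 - x) / δ) - cl ((1 - y) / δ)| ≤ |x - y| / δ := by
    refine (cl_lip _ _).trans (le_of_eq ?_)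
    have : (1 - x) / δ - (1 - y) / δ = -((x - y) / δ) := by ring
    rw [this, abs_neg, abs_div, abs_of_pos hδ]
  refine (abs_add_le _ _).trans ?_
  rw [abs_mul, abs_mul]
  have h6 : |cl ((1 - y) / δ)| ≤ 1 := by rw [abs_of_nonneg (cl_nonneg _)]; exact cl_le _
  calc _ ≤ |x - y| / δ * a + 1 * (4 * b * |x - y|) :=
        add_le_add (mul_le_mul h5 h3 (abs_nonneg _) (by positivity))
          (mul_le_mul h6 h4 (abs_nonneg _) zero_le_one)
    _ = _ := by ring

lemma G3_zero {a b δ u : ℝ} (hδ : 0 < δ) (hu : 1 ≤ u) : G3 a b δ u = 0 := by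
  unfold G3
  rw [cl_of_nonpos, zero_mul]
  exact div_nonpos_of_nonpos_of_nonneg (by linarith) hδ.le

/-- The target function `c - 1 + a (1-u) - b (1-u)^3`. -/
noncomputable def hp (c a b u : ℝ) : ℝ := c - 1 + a * (1 - u) - b * (1 - u) ^ 3

/-- The lower bound of the integral term. -/
lemma JJ_G3_ge {a b δ u : ℝ} (hb : 0 ≤ b) (hab : 3 * b ≤ a) (hδ : 0 < δ) (hu : 0 ≤ u) (hu1 : u < 1) :
    -(a / 2) + 3 * b / 4 - ((-a / 2 + 3 * b / 2) * u - b * u ^ 2 + b * u ^ 3 / 4) ≤
      1 / R.th * JJ R (G3 a b δ) u := by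
  have hth := th_pos R
  have hthlt := R.th_lt
  have hcont : Continuous fun x => R.f x ^ 2 * G3 a b δ (u + x / R.th) :=
    (f_sq_continuous R).mul ((G3_continuous a b δ).comp (by fun_prop))
  set d := R.th * (1 - u) with hd
  have hd0 : 0 ≤ d := mul_nonneg hth.le (by linarith)
  have hd1 : d ≤ 1 := by nlinarith
  have h1 : R.th * (-(a / 2) + 3 * b / 4 - ((-a / 2 + 3 * b / 2) * u - b * u ^ 2 + b * u ^ 3 / 4)) ≤
      JJ R (G3 a b δ) u := by
    unfold JJ
    rw [← intervalIntegral.integral_add_adjacent_intervals (b := d)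
      (hcont.intervalIntegrable _ _) (hcont.intervalIntegrable _ _)]
    have e1 : ∫ x in d..1, R.f x ^ 2 * G3 a b δ (u + x / R.th) = 0 := by
      rw [intervalIntegral.integral_of_le hd1]
      apply MeasureTheory.integral_eq_zero_of_ae
      refine (ae_restrict_iff' measurableSet_Ioc).mpr (Eventually.of_forall fun x hx => ?_)
      have : 1 - u ≤ x / R.th := by
        rw [le_div_iff₀ hth, mul_comm]; exact hx.1.le
      simp only [Pi.zero_apply]
      rw [G3_zero hδ (by linarith), mul_zero]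
    rw [e1, add_zero]
    have e2 : ∫ x in (0:ℝ)..d, gp a b (u + x / R.th) ≤
        ∫ x in (0:ℝ)..d, R.f x ^ 2 * G3 a b δ (u + x / R.th) := by
      apply intervalIntegral.integral_mono_on hd0
        (Continuous.intervalIntegrable ((gp_continuous a b).comp (by fun_prop)) _ _)
        (hcont.intervalIntegrable _ _)
      intro x hx
      have hx1 : 0 ≤ x / R.th := div_nonneg hx.1 hth.le
      have hx2 : x / R.th ≤ 1 - u := by
        rw [div_le_iff₀ hth, mul_comm]; exact hx.2
      have h5 := f_sq_le R x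
      have h5' := sq_nonneg (R.f x)
      have h6 : G3 a b δ (u + x / R.th) = cl ((1 - (u + x / R.th)) / δ) * gp a b (u + x / R.th) := by
        unfold G3
        rw [cl_of_mem (u := u + x / R.th) (by linarith) (by linarith)]
      rw [h6]
      have h7 := gp_nonpos (u := u + x / R.th) hb hab (by linarith) (by linarith)
      have h8 : R.f x ^ 2 * cl ((1 - (u + x / R.th)) / δ) ≤ 1 := by
        have := cl_le ((1 - (u + x / R.th)) / δ)
        have := cl_nonneg ((1 - (u + x / R.th)) / δ)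
        nlinarith
      show gp a b (u + x / R.th) ≤ _
      nlinarith
    refine le_trans (le_of_eq ?_) e2
    -- the polynomial integral
    have e3 : ∀ x ∈ Set.uIcc 0 d, HasDerivAt (fun x : ℝ => R.th * ((-a / 2 + 3 * b / 2) *
        (u + x / R.th) - b * (u + x / R.th) ^ 2 + b * (u + x / R.th) ^ 3 / 4))
        (gp a b (u + x / R.th)) x := by
      intro x _
      have k1 : HasDerivAt (fun x : ℝ => u + x / R.th) (1 / R.th) x := by
        simpa using ((hasDerivAt_id x).div_const R.th).const_add u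
      have k2 := ((k1.const_mul (-a / 2 + 3 * b / 2)).sub ((k1.pow 2).const_mul b)).add
        (((k1.pow 3).const_mul b).div_const 4)
      have k3 := k2.const_mul R.th
      refine k3.congr_deriv ?_
      have hne : R.th * (1 / R.th) = 1 := by field_simp
      unfold gp
      simp only [Nat.cast_ofNat]
      linear_combination (-a / 2 + 3 * b / 2 - 2 * b * (u + x / R.th) +
        3 / 4 * b * (u + x / R.th) ^ 2) * hne
    rw [intervalIntegral.integral_eq_sub_of_hasDerivAt e3
      (Continuous.intervalIntegrable ((gp_continuous a b).comp (by fun_prop)) _ _)]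
    have e4 : u + d / R.th = 1 := by rw [hd]; field_simp; ring
    rw [e4, zero_div, add_zero]
    ring
  calc _ = 1 / R.th * (R.th * (-(a / 2) + 3 * b / 4 -
        ((-a / 2 + 3 * b / 2) * u - b * u ^ 2 + b * u ^ 3 / 4))) := by field_simp
    _ ≤ _ := mul_le_mul_of_nonneg_left h1 (by positivity)

lemma JJ_G3_zero {a b δ u : ℝ} (hδ : 0 < δ) (hu : 1 ≤ u) : JJ R (G3 a b δ) u = 0 := by
  have hth := th_pos R
  unfold JJ
  rw [intervalIntegral.integral_of_le zero_le_one]
  apply MeasureTheory.integral_eq_zero_of_ae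
  refine (ae_restrict_iff' measurableSet_Ioc).mpr (Eventually.of_forall fun x hx => ?_)
  have : 0 ≤ x / R.th := div_nonneg hx.1.le hth.le
  simp only [Pi.zero_apply]
  rw [G3_zero hδ (by linarith), mul_zero]

/-- The mean of the target function. -/
theorem exists_hp_mean (R : ResData) (hr : R.r ^ 2 = 1) {c a b δ : ℝ} (hb : 0 ≤ b)
    (hab : 3 * b ≤ a) (hδ : 0 < δ) :
    ∃ C T0 : ℝ, 0 < C ∧ Real.exp 3 ≤ T0 ∧ ∀ T : ℝ, T0 ≤ T →
      (c - 1 + a / 2 - b / 4) * MM R T - a / 2 * Edge R T δ - C / Real.log T ≤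
        EE R T (fun u => if u < 1 then hp c a b u else 0) := by
  have ha : 0 ≤ a := by linarith
  obtain ⟨C, T0, hC, hT0, h⟩ := exists_adj R (G := G3 a b δ) (K := a / δ + 4 * b) (B := a)
    (by positivity) (G3_abs hb hab) (G3_lip hb hab hδ)
  refine ⟨C, T0, hC, hT0, fun T hT => ?_⟩
  have h1T : 1 < T := lt_of_lt_of_le (Real.one_lt_exp_iff.mpr (by norm_num)) (hT0.trans hT)
  have a1 := (abs_le.mp (h T hT)).1
  rw [hr] at a1
  have a2 : EE R T (fun u => u * G3 a b δ u) - 1 / R.th * EE R T (JJ R (G3 a b δ)) ≤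
      EE R T (fun u => if u < 1 then hp c a b u else 0) - (c - 1 + a / 2 - b / 4) * MM R T +
        a / 2 * Edge R T δ := by
    unfold MM Edge
    rw [← EE_const_mul, ← EE_const_mul, ← EE_const_mul, ← EE_sub, ← EE_sub, ← EE_add]
    apply EE_mono h1T
    intro u hu
    by_cases hu1 : u < 1
    · rw [if_pos hu1, if_pos hu1, mul_one]
      have b1 := JJ_G3_ge (R := R) hb hab hδ hu hu1
      have b2 : G3 a b δ u = cl ((1 - u) / δ) * gp a b u := by
        unfold G3
        rw [cl_of_mem hu hu1.le]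
      have b3 : u * gp a b u - (-(a / 2) + 3 * b / 4 -
          ((-a / 2 + 3 * b / 2) * u - b * u ^ 2 + b * u ^ 3 / 4)) =
          hp c a b u - (c - 1 + a / 2 - b / 4) := by
        unfold gp hp; ring
      have b4 := gp_nonpos hb hab hu hu1.le
      have b5 := gp_ge (a := a) hb hu hu1.le
      by_cases hu2 : 1 - δ ≤ u
      · rw [if_pos ⟨hu2, hu1⟩, b2]
        have c1 := cl_nonneg ((1 - u) / δ)
        have c2 := cl_le ((1 - u) / δ)
        have c3 : u * (cl ((1 - u) / δ) * gp a b u) ≤ u * gp a b u + a / 2 := by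
          have : u * (1 - cl ((1 - u) / δ)) * (-gp a b u) ≤ 1 * (a / 2) := by
            apply mul_le_mul _ (by linarith) (by linarith) (by norm_num)
            nlinarith
          nlinarith
        linarith
      · rw [if_neg (by intro h; exact hu2 h.1), b2, cl_of_ge, one_mul]
        · linarith
        · rw [le_div_iff₀ hδ]; linarith
    · rw [if_neg hu1, if_neg hu1, if_neg (by intro h; exact hu1 h.2), G3_zero hδ (not_lt.mp hu1),
        JJ_G3_zero hδ (not_lt.mp hu1)]
      norm_num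
  linarith

/-- The pointwise lower bound. `a = 4 c θ`, `b = 2 π² c³ θ³ / 9`. -/
lemma main_pointwise (R : ResData) {c κ δ : ℝ} {k : ℝ → ℝ} (hk : Continuous k) (hc0 : 0 < c)
    (hc1 : c < 1) (hκ : 0 < κ) (hδ : 0 < δ)
    (hF1 : ∀ x, R.F x ≤ 1) (hFδ : ∀ x, 0 ≤ x → x ≤ 1 - δ → R.F x = 1)
    (hkl : ∀ x, 0 ≤ x → x ≤ 1 / 2 → 2 * Real.pi * c - (Real.pi * c) ^ 3 * x ^ 2 / 3 ≤ k x)
    {u : ℝ} (hu : 0 ≤ u) :
    (if u < 1 then hp c (4 * c * R.th) (2 * Real.pi ^ 2 * c ^ 3 * R.th ^ 3 / 9) u -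
      (κ + (4 * c * (2 * R.ep + δ) + 4 * c * R.th * δ)) else 0) ≤
      (c - 1 - κ) * R.F u ^ 2 +
        2 / Real.pi * (R.F u * ∫ x in (0:ℝ)..1, R.f x * k x * R.F (u + x / R.th)) := by
  have hpi := Real.pi_pos
  have hpi3 := Real.pi_gt_three
  have hpi4 := Real.pi_lt_d2
  have hth := th_pos R
  have hthlt := R.th_lt
  have hep := R.ep_pos
  have hfc := R.f_smooth.continuous
  have hFc := R.F_smooth.continuous
  have hcont : ∀ u : ℝ, Continuous fun x => R.f x * k x * R.F (u + x / R.th) := fun u =>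
    (hfc.mul hk).mul (hFc.comp (by fun_prop))
  -- `k` is nonnegative on `[0,1/2]`
  have hk1nn : ∀ x, 0 ≤ x → x ≤ 1 / 2 → 0 ≤ 2 * Real.pi * c - (Real.pi * c) ^ 3 * x ^ 2 / 3 := by
    intro x hx0 hx1
    have h1 : x ^ 2 ≤ 1 / 4 := by nlinarith
    have h2 : (Real.pi * c) ^ 2 ≤ 10 := by
      have : Real.pi * c ≤ 3.15 := by nlinarith
      have h0 : 0 ≤ Real.pi * c := by positivity
      nlinarith
    have h3 : (Real.pi * c) ^ 3 * x ^ 2 / 3 = (Real.pi * c) * ((Real.pi * c) ^ 2 * x ^ 2 / 3) := by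
      ring
    have h4 : (Real.pi * c) ^ 2 * x ^ 2 ≤ 10 * (1 / 4) := by
      apply mul_le_mul h2 h1 (sq_nonneg _) (by norm_num)
    rw [h3]
    have h0 : 0 < Real.pi * c := by positivity
    nlinarith
  have hknn : ∀ x, 0 ≤ x → x ≤ 1 / 2 → 0 ≤ k x := fun x h0 h1 =>
    (hk1nn x h0 h1).trans (hkl x h0 h1)
  have hprod : ∀ x ∈ Set.Icc (0:ℝ) 1, 0 ≤ R.f x * k x * R.F (u + x / R.th) := by
    intro x hx
    by_cases hx2 : x ≤ 1 / 2
    · exact mul_nonneg (mul_nonneg (R.f_nonneg _) (hknn x hx.1 hx2)) (R.F_nonneg _)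
    · rw [R.f_high x (by linarith [not_le.mp hx2])]
      simp
  have hint : 0 ≤ ∫ x in (0:ℝ)..1, R.f x * k x * R.F (u + x / R.th) :=
    intervalIntegral.integral_nonneg zero_le_one hprod
  by_cases hu1 : u < 1
  · rw [if_pos hu1]
    by_cases hu2 : u ≤ 1 - δ
    · -- the main range
      rw [hFδ u hu hu2, one_pow, mul_one, one_mul]
      set d := R.th * (1 - δ - u) with hd
      have hd0 : 0 ≤ d := mul_nonneg hth.le (by linarith)
      have hdth : d ≤ R.th := by
        rw [hd]
        have : R.th * (1 - δ - u) ≤ R.th * 1 := mul_le_mul_of_nonneg_left (by linarith) hth.le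
        linarith
      have hd1 : d ≤ 1 := by linarith
      have h1 : ∫ x in (0:ℝ)..d, R.f x * k x * R.F (u + x / R.th) ≤
          ∫ x in (0:ℝ)..1, R.f x * k x * R.F (u + x / R.th) := by
        rw [← intervalIntegral.integral_add_adjacent_intervals (b := d)
          ((hcont u).intervalIntegrable _ _) ((hcont u).intervalIntegrable _ _) (c := 1)]
        have : 0 ≤ ∫ x in d..1, R.f x * k x * R.F (u + x / R.th) :=
          intervalIntegral.integral_nonneg hd1 fun x hx => hprod x ⟨hd0.trans hx.1, hx.2⟩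
        linarith
      have h2 : ∫ x in (0:ℝ)..d, ((2 * Real.pi * c - (Real.pi * c) ^ 3 * x ^ 2 / 3) -
          2 * Real.pi * c * (1 - R.f x)) ≤ ∫ x in (0:ℝ)..d, R.f x * k x * R.F (u + x / R.th) := by
        apply intervalIntegral.integral_mono_on hd0
          (Continuous.intervalIntegrable (by fun_prop) _ _) ((hcont u).intervalIntegrable _ _)
        intro x hx
        have hx1 : 0 ≤ x / R.th := div_nonneg hx.1 hth.le
        have hx2 : x / R.th ≤ 1 - δ - u := by
          rw [div_le_iff₀ hth, mul_comm]; exact hx.2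
        have hx3 : x ≤ 1 / 2 := by linarith [hx.2]
        rw [hFδ (u + x / R.th) (by linarith) (by linarith), mul_one]
        have h3 := hkl x hx.1 hx3
        have h4 := hk1nn x hx.1 hx3
        have h5 := R.f_nonneg x
        have h6 := R.f_le x
        have h7 : 0 ≤ (Real.pi * c) ^ 3 * x ^ 2 / 3 := by positivity
        have h8 : R.f x * (2 * Real.pi * c - (Real.pi * c) ^ 3 * x ^ 2 / 3) ≤ R.f x * k x :=
          mul_le_mul_of_nonneg_left h3 h5
        nlinarith
      have h3 : ∫ x in (0:ℝ)..d, (1 - R.f x) ≤ 2 * R.ep := by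
        have hc1' : Continuous fun x => 1 - R.f x := by fun_prop
        have e1 : ∀ x, 0 ≤ 1 - R.f x := fun x => by linarith [R.f_le x]
        rcases le_or_gt d (2 * R.ep) with hde | hde
        · calc ∫ x in (0:ℝ)..d, (1 - R.f x) ≤ ∫ x in (0:ℝ)..d, (1:ℝ) := by
                apply intervalIntegral.integral_mono_on hd0 (hc1'.intervalIntegrable _ _)
                  (by simp)
                intro x _
                linarith [R.f_nonneg x]
            _ ≤ 2 * R.ep := by simp; exact hde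
        · rw [← intervalIntegral.integral_add_adjacent_intervals (b := 2 * R.ep)
            (hc1'.intervalIntegrable _ _) (hc1'.intervalIntegrable _ _)]
          have e2 : ∫ x in (2 * R.ep)..d, (1 - R.f x) = 0 := by
            rw [intervalIntegral.integral_of_le hde.le]
            apply MeasureTheory.integral_eq_zero_of_ae
            refine (ae_restrict_iff' measurableSet_Ioc).mpr (Eventually.of_forall fun x hx => ?_)
            simp only [Pi.zero_apply]
            rw [R.f_mid x hx.1.le (hx.2.trans hdth), sub_self]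
          rw [e2, add_zero]
          calc ∫ x in (0:ℝ)..(2 * R.ep), (1 - R.f x) ≤ ∫ x in (0:ℝ)..(2 * R.ep), (1:ℝ) := by
                apply intervalIntegral.integral_mono_on (by positivity)
                  (hc1'.intervalIntegrable _ _) (by simp)
                intro x _
                linarith [R.f_nonneg x]
            _ = 2 * R.ep := by simp
      have h4 : ∫ x in (0:ℝ)..d, ((2 * Real.pi * c - (Real.pi * c) ^ 3 * x ^ 2 / 3) -
          2 * Real.pi * c * (1 - R.f x)) = (2 * Real.pi * c * d - (Real.pi * c) ^ 3 * d ^ 3 / 9) -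
          2 * Real.pi * c * ∫ x in (0:ℝ)..d, (1 - R.f x) := by
        rw [intervalIntegral.integral_sub (Continuous.intervalIntegrable (by fun_prop) _ _)
          (Continuous.intervalIntegrable (by fun_prop) _ _), intervalIntegral.integral_const_mul]
        congr 1
        have e3 : ∀ x ∈ Set.uIcc 0 d, HasDerivAt (fun x : ℝ => 2 * Real.pi * c * x -
            (Real.pi * c) ^ 3 * x ^ 3 / 9) (2 * Real.pi * c - (Real.pi * c) ^ 3 * x ^ 2 / 3) x := by
          intro x _
          have k2 := ((hasDerivAt_id x).const_mul (2 * Real.pi * c)).sub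
            ((((hasDerivAt_id x).pow 3).const_mul ((Real.pi * c) ^ 3)).div_const 9)
          refine k2.congr_deriv ?_
          simp only [Nat.cast_ofNat, id]
          ring
        rw [intervalIntegral.integral_eq_sub_of_hasDerivAt e3
          (Continuous.intervalIntegrable (by fun_prop) _ _)]
        ring
      -- conclusion
      have h5 : 2 * Real.pi * c * d - (Real.pi * c) ^ 3 * d ^ 3 / 9 - 2 * Real.pi * c * (2 * R.ep) ≤
          ∫ x in (0:ℝ)..1, R.f x * k x * R.F (u + x / R.th) := by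
        have : 2 * Real.pi * c * ∫ x in (0:ℝ)..d, (1 - R.f x) ≤ 2 * Real.pi * c * (2 * R.ep) :=
          mul_le_mul_of_nonneg_left h3 (by positivity)
        linarith
      have h6 : 2 / Real.pi * (2 * Real.pi * c * d - (Real.pi * c) ^ 3 * d ^ 3 / 9 -
          2 * Real.pi * c * (2 * R.ep)) ≤
          2 / Real.pi * ∫ x in (0:ℝ)..1, R.f x * k x * R.F (u + x / R.th) :=
        mul_le_mul_of_nonneg_left h5 (by positivity)
      have h7 : 2 / Real.pi * (2 * Real.pi * c * d - (Real.pi * c) ^ 3 * d ^ 3 / 9 -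
          2 * Real.pi * c * (2 * R.ep)) =
          4 * c * d - 2 * Real.pi ^ 2 * c ^ 3 * d ^ 3 / 9 - 8 * c * R.ep := by
        field_simp
        ring
      rw [h7] at h6
      have h8 : d ^ 3 ≤ (R.th * (1 - u)) ^ 3 := by
        apply pow_le_pow_left₀ hd0
        rw [hd]
        apply mul_le_mul_of_nonneg_left _ hth.le
        linarith
      have h9 : 2 * Real.pi ^ 2 * c ^ 3 * d ^ 3 / 9 ≤
          2 * Real.pi ^ 2 * c ^ 3 * (R.th * (1 - u)) ^ 3 / 9 := by gcongr
      have h10 : 4 * c * d = 4 * c * R.th * (1 - u) - 4 * c * R.th * δ := by rw [hd]; ring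
      have h11 : 2 * Real.pi ^ 2 * c ^ 3 * (R.th * (1 - u)) ^ 3 / 9 =
          2 * Real.pi ^ 2 * c ^ 3 * R.th ^ 3 / 9 * (1 - u) ^ 3 := by ring
      unfold hp
      have h12 : 0 ≤ c * δ := by positivity
      nlinarith
    · -- the edge
      have hu2' := not_le.mp hu2
      have h1 : hp c (4 * c * R.th) (2 * Real.pi ^ 2 * c ^ 3 * R.th ^ 3 / 9) u ≤
          c - 1 + 4 * c * R.th * δ := by
        unfold hp
        have e1 : 0 ≤ 2 * Real.pi ^ 2 * c ^ 3 * R.th ^ 3 / 9 * (1 - u) ^ 3 := by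
          have : 0 ≤ 1 - u := by linarith
          positivity
        have e2 : 4 * c * R.th * (1 - u) ≤ 4 * c * R.th * δ := by
          apply mul_le_mul_of_nonneg_left _ (by positivity)
          linarith
        linarith
      have h2 : 0 ≤ 2 / Real.pi * (R.F u * ∫ x in (0:ℝ)..1, R.f x * k x * R.F (u + x / R.th)) :=
        mul_nonneg (by positivity) (mul_nonneg (R.F_nonneg _) hint)
      have h3 : R.F u ^ 2 ≤ 1 := by
        have := R.F_nonneg u
        have := hF1 u
        nlinarith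
      have h4 : (c - 1 - κ) * R.F u ^ 2 ≥ c - 1 - κ := by nlinarith
      have h5 : 0 ≤ 4 * c * (2 * R.ep + δ) := by positivity
      linarith
  · rw [if_neg hu1, R.F_one u (not_lt.mp hu1)]
    norm_num

end Pool.Agent.ZGap.Res.Small
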